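import Pool.Agent.Y223.G.Stm

/-!
Homogeneous generators and valuations of the low part (port of `H920R2.Gr3` to base rings).
-/

set_option autoImplicit false

namespace Pool.Agent.Y232.G

open Pool.Agent.Y223.G

section gens

variable {k K : Type} [CommRing k] [Field K] [Algebra k K]

/-- Module generators of the part of degree `e`. -/
lemma exists_gens_deg {C : Subalgebra k (LP K)} [IsNoetherianRing C] (hgr : Gr C) (e : ℤ) :
    ∃ s : Finset K, (∀ b ∈ s, b ≠ 0 ∧ hm e b ∈ C) ∧ ∀ a, hm e a ∈ C →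
      ∀ D : Subalgebra k (LP K), (∀ r, hm 0 r ∈ C → hm 0 r ∈ D) → (∀ b ∈ s, hm e b ∈ D) →
        hm e a ∈ D := by
  classical
  let T : Set C := {y | ∃ a, (y : LP K) = hm e a}
  have hfg : (Ideal.span T).FG := IsNoetherian.noetherian _
  obtain ⟨t, htT, ht⟩ := (Submodule.fg_span_iff_fg_span_finset_subset T).1 hfg
  refine ⟨(t.image fun y : C => (y.1).coeff e).filter (· ≠ 0), ?_, ?_⟩
  · intro b hb
    rw [Finset.mem_filter, Finset.mem_image] at hb
    obtain ⟨⟨y, hy, rfl⟩, h0⟩ := hb
    exact ⟨h0, hgr y.1 y.2 e⟩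
  · intro a ha D hD0 hDb
    have h1 : (⟨hm e a, ha⟩ : C) ∈ Submodule.span C (t : Set C) := by
      rw [← ht]
      exact Submodule.subset_span ⟨a, rfl⟩
    rw [Submodule.mem_span_finset] at h1
    obtain ⟨f, -, hf⟩ := h1
    have h2 : (∑ y ∈ t, (f y : C).1 * y.1) = hm e a := by
      have h7 := congrArg (fun z : C => (z : LP K)) hf
      simp only [AddSubmonoidClass.coe_finsetSum, smul_eq_mul, MulMemClass.coe_mul] at h7
      exact h7
    have h3 : a = ∑ y ∈ t, (f y).1.coeff 0 * y.1.coeff e := by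
      have h4 := congrArg (fun g => g.coeff e) h2
      rw [coeff_hm_same] at h4
      rw [← h4, AddMonoidAlgebra.coeff_sum, Finsupp.finsetSum_apply]
      refine Finset.sum_congr rfl fun y hy => ?_
      obtain ⟨b, hb⟩ := htT hy
      rw [hb, mul_comm ((f y).1), coeff_hm_mul, sub_self, coeff_hm_same, mul_comm]
    rw [h3]
    have h5 : hm e (∑ y ∈ t, (f y).1.coeff 0 * y.1.coeff e) =
        ∑ y ∈ t, hm 0 ((f y).1.coeff 0) * hm e (y.1.coeff e) := by
      have h6 : ∀ s : Finset C, hm e (∑ y ∈ s, (f y).1.coeff 0 * y.1.coeff e) =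
        ∑ y ∈ s, hm 0 ((f y).1.coeff 0) * hm e (y.1.coeff e) := by
        intro s
        induction s using Finset.induction_on with
        | empty => simp [hm_zero]
        | insert y s hy ih => rw [Finset.sum_insert hy, Finset.sum_insert hy, hm_add, ih, hm_mul,
            zero_add]
      exact h6 t
    rw [h5]
    refine D.sum_mem fun y hy => ?_
    refine D.mul_mem (hD0 _ (hgr _ (f y).2 0)) ?_
    by_cases h0 : y.1.coeff e = 0
    · rw [h0, hm_zero]; exact D.zero_mem
    · refine hDb _ ?_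
      rw [Finset.mem_filter, Finset.mem_image]
      exact ⟨⟨y, hy, rfl⟩, h0⟩

lemma gr_Dx (C : Subalgebra k (LP K)) {J : Type} (d : J → ℕ) (x : J → K) :
    Gr (Dx C d x) := by
  refine gr_adjoin _ ?_
  rintro f (⟨-, a, rfl⟩ | ⟨j, rfl⟩)
  · exact ⟨0, a, rfl⟩
  · exact ⟨_, _, rfl⟩

/-- Generators in degrees between `0` and `ρ`. -/
lemma exists_gens_low {C : Subalgebra k (LP K)} [IsNoetherianRing C] (hgr : Gr C) (ρ : ℕ) :
    ∃ (J : Type) (_ : Finite J) (d : J → ℕ) (x : J → K),
      (∀ j, 0 < d j ∧ d j < ρ ∧ x j ≠ 0 ∧ hm (d j) (x j) ∈ C) ∧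
      ∀ (e : ℕ) (a : K), 0 < e → e < ρ → hm e a ∈ C → hm e a ∈ Dx C d x := by
  classical
  choose s hs hs' using fun e : ℤ => exists_gens_deg hgr e
  let J := Σ e : {e : ℕ // e ∈ Finset.Ioo 0 ρ}, {b // b ∈ s e.1}
  refine ⟨J, inferInstance, fun j => j.1.1, fun j => j.2.1, ?_, ?_⟩
  · rintro ⟨⟨e, he⟩, ⟨b, hb⟩⟩
    rw [Finset.mem_Ioo] at he
    exact ⟨he.1, he.2, (hs e b hb).1, (hs e b hb).2⟩
  · intro e a he heρ ha
    refine hs' e a ha _ ?_ ?_
    · intro r hr
      exact Algebra.subset_adjoin (Or.inl ⟨hr, r, rfl⟩)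
    · intro b hb
      refine Algebra.subset_adjoin (Or.inr ⟨⟨⟨e, Finset.mem_Ioo.2 ⟨he, heρ⟩⟩, ⟨b, hb⟩⟩, rfl⟩)

/-- The elements of nonnegative degree of `low C ρ`. -/
lemma low_nonneg {C : Subalgebra k (LP K)} {ρ : ℕ} {J : Type} (d : J → ℕ)
    (x : J → K) (hx : ∀ j, 0 < d j ∧ d j < ρ ∧ x j ≠ 0 ∧ hm (d j) (x j) ∈ C)
    (hD : ∀ (e : ℕ) (a : K), 0 < e → e < ρ → hm e a ∈ C → hm e a ∈ Dx C d x)
    {e : ℕ} {a : K} (h : hm e a ∈ low C ρ) : hm e a ∈ Dx C d x := by
  classical
  set D := Dx C d x with hDd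
  have hD0 : ∀ r, hm 0 r ∈ C → hm 0 r ∈ D := fun r hr => Algebra.subset_adjoin (Or.inl ⟨hr, r, rfl⟩)
  let G : Set (LP K) := {f | f ∈ C ∧ ∃ (e : ℤ) (a : K), e < 0 ∧ f = hm e a}
  let Neg : Submodule k (LP K) := Submodule.span k G
  let M : Submodule k (LP K) := Subalgebra.toSubmodule D ⊔ Neg
  have hDM : ∀ y ∈ D, y ∈ M := fun y hy => Submodule.mem_sup_left hy
  have hNM : ∀ y ∈ Neg, y ∈ M := fun y hy => Submodule.mem_sup_right hy
  have hNN : ∀ y ∈ Neg, ∀ z ∈ Neg, y * z ∈ Neg := by
    intro y hy z hz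
    induction hy using Submodule.span_induction with
    | mem g hg =>
      obtain ⟨hg, e, a, he, rfl⟩ := hg
      induction hz using Submodule.span_induction with
      | mem g' hg' =>
        obtain ⟨hg', e', a', he', rfl⟩ := hg'
        exact Submodule.subset_span ⟨C.mul_mem hg hg', _, _, by omega, hm_mul _ _ _ _⟩
      | zero => rw [mul_zero]; exact Neg.zero_mem
      | add x y _ _ hx hy => rw [mul_add]; exact Neg.add_mem hx hy
      | smul r x _ hx => rw [mul_smul_comm]; exact Neg.smul_mem r hx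
    | zero => rw [zero_mul]; exact Neg.zero_mem
    | add x y _ _ hx hy => rw [add_mul]; exact Neg.add_mem hx hy
    | smul r x _ hx => rw [smul_mul_assoc]; exact Neg.smul_mem r hx
  have hND : ∀ y ∈ D, ∀ g ∈ Neg, g * y ∈ M := by
    intro y hy
    unfold D Dx at hy
    induction hy using Algebra.adjoin_induction with
    | mem y hy =>
      intro g hg
      induction hg using Submodule.span_induction with
      | mem g hg =>
        obtain ⟨hg, e, a, he, rfl⟩ := hg
        rcases hy with ⟨hy, b, rfl⟩ | ⟨j, rfl⟩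
        · exact hNM _ (Submodule.subset_span ⟨C.mul_mem hg hy, _, _, by omega, hm_mul _ _ _ _⟩)
        · have h1 := C.mul_mem hg (hx j).2.2.2
          change hm e a * hm (d j) (x j) ∈ M
          rw [hm_mul] at h1 ⊢
          rcases lt_trichotomy (e + d j) 0 with h2 | h2 | h2
          · exact hNM _ (Submodule.subset_span ⟨h1, _, _, h2, rfl⟩)
          · rw [h2] at h1 ⊢
            exact hDM _ (hD0 _ h1)
          · obtain ⟨n, hn⟩ := Int.eq_ofNat_of_zero_le h2.le
            rw [hn] at h1 ⊢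
            refine hDM _ (hD n _ ?_ ?_ h1)
            · have : (0 : ℤ) < n := by
                have := h2; rw [hn] at this; exact this
              exact_mod_cast this
            · have h3 : (n : ℤ) < ρ := by
                have h4 : e + d j = (n : ℤ) := hn
                have h5 : (d j : ℤ) < ρ := by exact_mod_cast (hx j).2.1
                omega
              exact_mod_cast h3
      | zero => rw [zero_mul]; exact M.zero_mem
      | add x y _ _ hx hy => rw [add_mul]; exact M.add_mem hx hy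
      | smul r x _ hx => rw [smul_mul_assoc]; exact M.smul_mem r hx
    | algebraMap r =>
      intro g hg
      rw [mul_comm, ← Algebra.smul_def]
      exact hNM _ (Neg.smul_mem r hg)
    | add y z _ _ hy hz =>
      intro g hg
      rw [mul_add]
      exact M.add_mem (hy g hg) (hz g hg)
    | mul y z hy' hz' hy hz =>
      intro g hg
      rw [← mul_assoc]
      obtain ⟨p, hp, q, hq, hpq⟩ := Submodule.mem_sup.1 (hy g hg)
      rw [← hpq, add_mul]
      exact M.add_mem (hDM _ (D.mul_mem hp hz')) (hz q hq)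
  have hMM : ∀ y ∈ M, ∀ z ∈ M, y * z ∈ M := by
    intro y hy z hz
    obtain ⟨p, hp, q, hq, rfl⟩ := Submodule.mem_sup.1 hy
    obtain ⟨p', hp', q', hq', rfl⟩ := Submodule.mem_sup.1 hz
    have e1 : (p + q) * (p' + q') = (p * p' + q' * p) + (q * p' + q * q') := by ring
    rw [e1]
    exact M.add_mem (M.add_mem (hDM _ (D.mul_mem hp hp')) (hND p hp q' hq'))
      (M.add_mem (hND p' hp' q hq) (hNM _ (hNN q hq q' hq')))
  have hlow : ∀ f ∈ low C ρ, f ∈ M := by
    intro f hf
    unfold low at hf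
    induction hf using Algebra.adjoin_induction with
    | mem f hf =>
      obtain ⟨hf, e, a, he, rfl⟩ := hf
      rcases lt_trichotomy e 0 with h2 | h2 | h2
      · exact hNM _ (Submodule.subset_span ⟨hf, _, _, h2, rfl⟩)
      · subst h2; exact hDM _ (hD0 _ hf)
      · obtain ⟨n, rfl⟩ := Int.eq_ofNat_of_zero_le h2.le
        exact hDM _ (hD n _ (by exact_mod_cast h2) (by exact_mod_cast he) hf)
    | algebraMap r => exact hDM _ (D.algebraMap_mem r)
    | add x y _ _ hx hy => exact M.add_mem hx hy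
    | mul x y _ _ hx hy => exact hMM _ hx _ hy
  obtain ⟨p, hp, q, hq, hpq⟩ := Submodule.mem_sup.1 (hlow _ h)
  have hq0 : ∀ q ∈ Neg, q.coeff e = 0 := by
    intro q hq
    induction hq using Submodule.span_induction with
    | mem g hg =>
      obtain ⟨-, e', a', he', rfl⟩ := hg
      rw [coeff_hm, if_neg (by omega)]
    | zero => rfl
    | add x y _ _ hx hy => rw [AddMonoidAlgebra.coeff_add, Finsupp.add_apply, hx, hy, add_zero]
    | smul r x _ hx => rw [AddMonoidAlgebra.coeff_smul, Finsupp.smul_apply, hx, smul_zero]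
  have h3 : a = p.coeff e := by
    have h4 := congrArg (fun g => g.coeff (e : ℤ)) hpq
    rw [AddMonoidAlgebra.coeff_add, Finsupp.add_apply, hq0 q hq, add_zero, coeff_hm_same] at h4
    exact h4.symm
  rw [h3]
  exact gr_Dx C d x p hp e

/-- The elements of degree zero of a localisation at an element of `low C ρ` which dominates all
others lie in the valuation ring. -/
lemma val_le_of_low {C : Subalgebra k (LP K)} {ρ : ℕ} {J : Type} (d : J → ℕ)
    (x : J → K) (hx : ∀ j, 0 < d j ∧ d j < ρ ∧ x j ≠ 0 ∧ hm (d j) (x j) ∈ C)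
    (hD : ∀ (e : ℕ) (a : K), 0 < e → e < ρ → hm e a ∈ C → hm e a ∈ Dx C d x)
    (V : ValuationSubring K) (hV : ∀ r, hm 0 r ∈ C → r ∈ V) (j : J)
    (hj : ∀ i, V.valuation (x i) ^ d j ≤ V.valuation (x j) ^ d i) {y : K} {n : ℕ}
    (hy : hm (d j) (x j) ^ n * hm 0 y ∈ low C ρ) : y ∈ V := by
  classical
  set v := V.valuation
  have hBpos : ∀ e : ℤ, 0 < v (x j) ^ e := by
    intro e
    have h1 : v (x j) ≠ 0 := (Valuation.ne_zero_iff v).2 (hx j).2.2.1
    exact zero_lt_iff.2 (zpow_ne_zero e h1)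
  have hadd : ∀ (e : ℤ) (a b : K), v a ^ d j ≤ v (x j) ^ e → v b ^ d j ≤ v (x j) ^ e →
      v (a + b) ^ d j ≤ v (x j) ^ e := by
    intro e a b ha hb
    rcases v.map_add' a b with h | h
    · exact (pow_le_pow_left' h _).trans ha
    · exact (pow_le_pow_left' h _).trans hb
  have hzero : ∀ e : ℤ, v (0 : K) ^ d j ≤ v (x j) ^ e := by
    intro e
    rw [map_zero, zero_pow (hx j).1.ne']
    exact (hBpos e).le
  have hsum : ∀ (e : ℤ) {ι : Type} (s : Finset ι) (f : ι → K),
      (∀ i ∈ s, v (f i) ^ d j ≤ v (x j) ^ e) → v (∑ i ∈ s, f i) ^ d j ≤ v (x j) ^ e := by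
    intro e ι s f
    induction s using Finset.induction_on with
    | empty => intro _; rw [Finset.sum_empty]; exact hzero e
    | insert i s hi ih =>
      intro h
      rw [Finset.sum_insert hi]
      exact hadd e _ _ (h i (Finset.mem_insert_self i s))
        (ih fun i' hi' => h i' (Finset.mem_insert_of_mem hi'))
  have key : ∀ f ∈ Dx C d x, ∀ e : ℤ, v (f.coeff e) ^ d j ≤ v (x j) ^ e := by
    intro f hf
    unfold Dx at hf
    induction hf using Algebra.adjoin_induction with
    | mem f hf =>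
      intro e
      rcases hf with ⟨hf, a, rfl⟩ | ⟨i, rfl⟩
      · rw [coeff_hm]
        split_ifs with h
        · rw [← h, zpow_zero]
          exact pow_le_one' ((V.valuation_le_one_iff a).2 (hV a hf)) _
        · exact hzero e
      · change v ((hm (d i : ℤ) (x i)).coeff e) ^ d j ≤ _
        rw [coeff_hm]
        split_ifs with h
        · rw [← h, zpow_natCast]
          exact hj i
        · exact hzero e
    | algebraMap r =>
      intro e
      rw [algebraMap_LP, coeff_hm]
      split_ifs with h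
      · rw [← h, zpow_zero]
        refine pow_le_one' ((V.valuation_le_one_iff _).2 (hV _ ?_)) _
        rw [← algebraMap_LP]
        exact C.algebraMap_mem r
      · exact hzero e
    | add f g _ _ hf hg =>
      intro e
      rw [AddMonoidAlgebra.coeff_add, Finsupp.add_apply]
      exact hadd e _ _ (hf e) (hg e)
    | mul f g _ _ hf hg =>
      intro e
      rw [eq_sum_hm f, Finset.sum_mul, AddMonoidAlgebra.coeff_sum, Finsupp.finsetSum_apply]
      have h1 : ∀ a ∈ f.coeff.support, v ((hm a (f.coeff a) * g).coeff e) ^ d j ≤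
          v (x j) ^ e := by
        intro a _
        rw [coeff_hm_mul, map_mul, mul_pow]
        have h2 : v (x j) ^ e = v (x j) ^ a * v (x j) ^ (e - a) := by
          rw [← zpow_add₀ ((Valuation.ne_zero_iff v).2 (hx j).2.2.1)]
          congr 1
          ring
        rw [h2]
        exact mul_le_mul' (hf a) (hg (e - a))
      have h3 : ∀ s : Finset ℤ, (∀ a ∈ s, v ((hm a (f.coeff a) * g).coeff e) ^ d j ≤
          v (x j) ^ e) → v (∑ a ∈ s, (hm a (f.coeff a) * g).coeff e) ^ d j ≤ v (x j) ^ e := by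
        intro s
        induction s using Finset.induction_on with
        | empty => intro _; rw [Finset.sum_empty]; exact hzero e
        | insert i s hi ih =>
          intro h
          rw [Finset.sum_insert hi]
          exact hadd e _ _ (h i (Finset.mem_insert_self i s))
            (ih fun i' hi' => h i' (Finset.mem_insert_of_mem hi'))
      exact h3 _ h1
  have h1 : hm (d j) (x j) ^ n * hm 0 y = hm ((n * d j : ℕ) : ℤ) (x j ^ n * y) := by
    rw [hm_pow, hm_mul, add_zero]
    push_cast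
    rfl
  rw [h1] at hy
  have h2 := key _ (low_nonneg d x hx hD hy) ((n * d j : ℕ) : ℤ)
  rw [coeff_hm_same, zpow_natCast, map_mul, map_pow, mul_pow, ← pow_mul] at h2
  rw [← V.valuation_le_one_iff]
  have h3 : 0 < v (x j) ^ (n * d j) := by
    have h1 : v (x j) ≠ 0 := (Valuation.ne_zero_iff v).2 (hx j).2.2.1
    exact zero_lt_iff.2 (pow_ne_zero _ h1)
  have h4 : v y ^ d j ≤ 1 := by
    have h5 : v (x j) ^ (n * d j) * v y ^ d j ≤ v (x j) ^ (n * d j) * 1 := by rwa [mul_one]
    exact le_of_mul_le_mul_left h5 h3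
  exact (pow_le_one_iff_of_nonneg zero_le (hx j).1.ne').1 h4

lemma Dx_mono (C : Subalgebra k (LP K)) {J J' : Type} (d : J → ℕ) (x : J → K) (d' : J' → ℕ)
    (x' : J' → K) (ι : J → J') (h : ∀ j, d' (ι j) = d j) (h' : ∀ j, x' (ι j) = x j) :
    Dx C d x ≤ Dx C d' x' := by
  unfold Dx
  apply Algebra.adjoin_mono
  rintro f (hf | ⟨j, rfl⟩)
  · exact Or.inl hf
  · refine Or.inr ⟨ι j, ?_⟩
    simp only [h, h']

/-- Generators in degrees between `0` and `ρ`, nonempty version. -/
lemma exists_gens_low' [IsNoetherianRing k] {C : Subalgebra k (LP K)} (hft : Algebra.FiniteType k C) (hgr : Gr C)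
    {ρ r : ℕ} (hρ : 2 ≤ ρ) (hr : 0 < r) (hrρ : r ≤ ρ) {u : K} (hu0 : u ≠ 0) (hu : hm r u ∈ C)
    (hss : hm (-1) 1 ∈ C) :
    ∃ (J : Type) (_ : Finite J) (_ : Nonempty J) (d : J → ℕ) (x : J → K),
      (∀ j, 0 < d j ∧ d j < ρ ∧ x j ≠ 0 ∧ hm (d j) (x j) ∈ C) ∧
      ∀ (e : ℕ) (a : K), 0 < e → e < ρ → hm e a ∈ C → hm e a ∈ Dx C d x := by
  have hnoe : IsNoetherianRing C := Algebra.FiniteType.isNoetherianRing k C
  obtain ⟨J, hJ, d, x, h1, h2⟩ := exists_gens_low hgr ρ
  have h3 : ∃ e : ℕ, 0 < e ∧ e < ρ ∧ hm e u ∈ C := by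
    by_cases h : r = 1
    · subst h
      exact ⟨1, one_pos, by omega, hu⟩
    · refine ⟨r - 1, by omega, by omega, ?_⟩
      have h4 := C.mul_mem hss hu
      rw [hm_mul, one_mul] at h4
      have h5 : -1 + (r : ℤ) = ((r - 1 : ℕ) : ℤ) := by omega
      rwa [h5] at h4
  obtain ⟨e, he, heρ, heu⟩ := h3
  refine ⟨Option J, inferInstance, inferInstance, fun o => o.elim e d, fun o => o.elim u x,
    ?_, ?_⟩
  · rintro (_ | j)
    · exact ⟨he, heρ, hu0, heu⟩
    · exact h1 j
  · intro e' a he' heρ' ha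
    exact Dx_mono C d x _ _ some (fun _ => rfl) (fun _ => rfl) (h2 e' a he' heρ' ha)

end gens

theorem t_GENS : S_GENS := by
  intro k K _ _ _ _ C hft hgr ρ r hρ hr hrρ u hu0 hu hss
  exact exists_gens_low' hft hgr hρ hr hrρ hu0 hu hss

theorem t_VAL : S_VAL := by
  intro k K _ _ _ C ρ J d x hx hD V hV j hj y n hy
  exact val_le_of_low d x hx hD V hV j hj hy

end Pool.Agent.Y232.G
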